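import Pool.Agent.Run7.h552.CT.Gou

/-!
# Representations which are not entangled with a member of the family
-/

set_option autoImplicit false
set_option linter.unusedSectionVars false

namespace Run7.h552.NA

open Module Finset Function Pool.Agent.TH125.Gal Pool.Agent.Y127.G Pool.Agent.Y127.C
  Pool.Agent.Y95.ZT Run7.h552.CT

variable {K : Type} [Field K] [CharZero K] {Γ : Type} [Group Γ]

/-- There is an equivariant homomorphism of Lie algebras from a stable Lie algebra of operators on `M`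
to the operators on `T`, with a noncommutative image. -/
def Ent (T M : FRep K Γ) : Prop :=
  ∃ (L : Submodule K (Module.End K M.V)) (φ : Module.End K M.V →ₗ[K] Module.End K T.V),
    (∀ x ∈ L, ∀ y ∈ L, x * y - y * x ∈ L ∧ φ (x * y - y * x) = φ x * φ y - φ y * φ x) ∧
    (∀ (g : Γ) (x x' : Module.End K M.V), x ∈ L → (∀ u, x' (M.ρ g u) = M.ρ g (x u)) →
      x' ∈ L ∧ ∀ t, φ x' (T.ρ g t) = T.ρ g (φ x t)) ∧
    ∃ x ∈ L, ∃ y ∈ L, φ x * φ y ≠ φ y * φ x

variable {ι : Type} {N : ι → FRep K Γ} {t a : ι}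

/-- without a good operator there is a homomorphism of Lie algebras -/
theorem ent_of_not_good (hng : ¬Good N t a)
    (hne : ∃ D ∈ GG1 N, ∃ D' ∈ GG1 N, br (D t) (D' t) ≠ 0) :
    Ent (N t) (N a) := by
  have h0 : ∀ D ∈ GG1 N, D a = 0 → D t = 0 := by
    intro D hD ha
    by_contra ht
    exact hng ⟨D, hD, ha, ht⟩
  let f : GG1 N →ₗ[K] Module.End K (N a).V :=
    (LinearMap.proj a : (∀ i, (N i).V →ₗ[K] (N i).V) →ₗ[K] _) ∘ₗ (GG1 N).subtype
  let g : GG1 N →ₗ[K] Module.End K (N t).V :=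
    (LinearMap.proj t : (∀ i, (N i).V →ₗ[K] (N i).V) →ₗ[K] _) ∘ₗ (GG1 N).subtype
  obtain ⟨Φ, hΦ⟩ := exists_factor f g fun x hx => h0 x.1 x.2 hx
  have hΦ' : ∀ D ∈ GG1 N, Φ (D a) = D t := fun D hD => hΦ ⟨D, hD⟩
  refine ⟨res (GG1 N) a, Φ, ?_, ?_, ?_⟩
  · rintro _ ⟨D, hD, rfl⟩ _ ⟨D', hD', rfl⟩
    have h1 : brk D D' ∈ GG1 N := brk_mem1 (GG1_le hD) (GG1_le hD')
    refine ⟨⟨brk D D', h1, rfl⟩, ?_⟩
    exact (hΦ' _ h1).trans (by
      rw [brk_eq_br]
      change br (D t) (D' t) = Φ (D a) * Φ (D' a) - Φ (D' a) * Φ (D a)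
      rw [hΦ' D hD, hΦ' D' hD']
      rfl)
  · rintro γ _ x' ⟨D, hD, rfl⟩ hx
    have h1 := GG1_cnj hD γ
    have h2 : x' = cnj γ D a := by
      apply LinearMap.ext
      intro u
      rw [cnj_apply]
      have h3 := hx ((N a).ρ γ⁻¹ u)
      rw [FRep.inv_right] at h3
      exact h3
    refine ⟨⟨cnj γ D, h1, h2.symm⟩, fun v => ?_⟩
    rw [h2, hΦ' _ h1, cnj_apply]
    change (N t).ρ γ (D t ((N t).ρ γ⁻¹ ((N t).ρ γ v))) = (N t).ρ γ (Φ (D a) v)
    rw [hΦ' D hD]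
    congr 2
    have h3 := FRep.inv_right (N t) γ⁻¹ v
    rw [inv_inv] at h3
    exact h3
  · obtain ⟨D, hD, D', hD', h1⟩ := hne
    refine ⟨D a, ⟨D, hD, rfl⟩, D' a, ⟨D', hD', rfl⟩, fun h2 => h1 ?_⟩
    rw [hΦ' D hD, hΦ' D' hD'] at h2
    rw [br, h2, sub_self]

/-- **A member of symplectic type.** -/
theorem good_of_not_entS (o : FulS N t) (h : ¬Ent (N t) (N a)) : Good N t a := by
  by_contra hng
  refine h (ent_of_not_good hng ?_)
  obtain ⟨D, hD, hDt⟩ := o.full o.p o.p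
  obtain ⟨D', hD', hDt'⟩ := o.full o.q o.q
  refine ⟨D, hD, D', hD', ?_⟩
  rw [hDt, hDt']
  exact br_pq o.sy o.pq

/-- **A member of orthogonal type.** -/
theorem good_of_not_entO (o : Ful N t) (h : ¬Ent (N t) (N a)) : Good N t a := by
  by_contra hng
  refine h (ent_of_not_good hng ?_)
  obtain ⟨u, hu⟩ := exists_br_ne o.sy o.nd o.pp o.qq o.qp (by have := o.dim; omega)
  obtain ⟨D, hD, hDt⟩ := o.full o.p o.q
  obtain ⟨D', hD', hDt'⟩ := o.full o.p u
  refine ⟨D, hD, D', hD', ?_⟩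
  rw [hDt, hDt']
  exact hu

end Run7.h552.NA
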