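import Pool.Agent.Run7.h552.NA.EDefs
import Pool.Agent.Run7.h552.MX.CCnv

/-!
# The conversion
-/

set_option autoImplicit false
set_option linter.unusedSectionVars false

open CategoryTheory AlgebraicGeometry

universe u

namespace Run7.h552.NA

open Pool.Agent Pool.Agent.H914 Pool.Agent.H914.VarClass Pool.Agent.H914.VarClass.Obj
  Pool.Agent.H914.WeilCohomology Pool.Agent.H281R3.HT Pool.Agent.W552 Pool.Agent.TH125.Gal
  Pool.Agent.Y127 Pool.Agent.Y127.G Pool.Agent.Y95.ZT Run7.h552.CT Run7.h552.SF Run7.h552.MX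

section Alg

variable {K : Type} [Field K] [CharZero K] {A : Type} [Ring A] [Algebra K A]
  {B : Type} [Ring B] [Algebra K B] {Γ : Type} [Group Γ] [FiniteDimensional K A]
  [FiniteDimensional K B]

theorem hasLieHom_of {V V' : Type} [AddCommGroup V] [Module K V] [AddCommGroup V'] [Module K V']
    {R : Γ → V → V → Prop} {R' : Γ → V' → V' → Prop} (L : Submodule K (Module.End K V))
    (φ : Module.End K V →ₗ[K] Module.End K V')
    (h1 : ∀ x ∈ L, ∀ y ∈ L, x * y - y * x ∈ L ∧ φ (x * y - y * x) = φ x * φ y - φ y * φ x)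
    (h2 : ∀ g, ∀ x ∈ L, ∀ x', Conj R g x x' → x' ∈ L ∧ Conj R' g (φ x) (φ x'))
    (h3 : ∃ x ∈ L, ∃ y ∈ L, φ x * φ y ≠ φ y * φ x) : HasLieHom (K := K) R R' := by
  obtain ⟨x0, hx0, y0, hy0, h3⟩ := h3
  refine ⟨fun x => x ∈ L, φ, fun x y c hx hy => ⟨?_, ?_⟩, fun g x x' hx hx' => h2 g x hx x' hx',
    x0, y0, hx0, hy0, h3⟩
  · exact L.add_mem (L.add_mem (L.smul_mem _ hx) (L.smul_mem _ hy)) (L.smul_mem _ (h1 x hx y hy).1)
  · rw [comb, map_add, map_add, map_smul, map_smul, map_smul, (h1 x hx y hy).2, comb]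

theorem entangled_of {ρ : Act K A Γ} {T : Submodule K A} {ρT : Γ →* (T →ₗ[K] T)}
    (hρ : ∀ g x, (ρT g x : A) = ap ρ g x) {ρ' : Act K B Γ} {U : Submodule K B}
    (hU : ∀ g, ∀ x ∈ U, ap ρ' g x ∈ U)
    (h : Ent (⟨T, ρT⟩ : FRep K Γ) (Y95.ZT.subRep (show Γ →* (B ≃ₐ[K] B) from ρ') U hU)) :
    Entangled ρ T ρ' U := by
  obtain ⟨L, φ, h1, h2, h3⟩ := h
  refine hasLieHom_of (V := U) (V' := T) L φ h1 (fun g x hx x' hx' => ?_) h3
  have h8 : ∀ u : U, (x' ⟨ap ρ' g u, hU g _ u.2⟩ : B) = ap ρ' g (x u) := fun u =>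
    (hx' u ⟨ap ρ' g u, hU g _ u.2⟩ rfl).symm
  obtain ⟨h4, h5⟩ := h2 g x x' hx (fun u => Subtype.ext (h8 u))
  refine ⟨h4, fun t t' ht => ?_⟩
  have h6 : t' = ρT g t := Subtype.ext (by rw [hρ]; exact ht.symm)
  rw [h6]
  have h7 : (φ x' (ρT g t) : A) = (ρT g (φ x t) : T) := congrArg Subtype.val (h5 t)
  exact ((hρ g (φ x t)).symm.trans h7.symm)

theorem freeO_of {n : ℕ} (hn : Even n) {ρ : Act K A Γ} {T : Submodule K A}
    {ρT : Γ →* (T →ₗ[K] T)} (hρ : ∀ g x, (ρT g x : A) = ap ρ g x) {ρ' : Act K B Γ}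
    {U : Submodule K B} (hU : ∀ g, ∀ x ∈ U, ap ρ' g x ∈ U)
    (h : ¬Entangled ρ T ρ' U ∨ LowDim n (dm K (U : Set B)) (dm K (T : Set A))) :
    SmallRelO (⟨T, ρT⟩ : FRep K Γ) (Y95.ZT.subRep (show Γ →* (B ≃ₐ[K] B) from ρ') U hU) := by
  rcases h with h | h1
  · exact Or.inl (Or.inr (Or.inr (Or.inr fun h1 => h (entangled_of hρ hU h1))))
  · have he1 : (n + 1) % 2 = 1 := by
      obtain ⟨m, rfl⟩ := hn
      omega
    have h1 : 2 * C.dm K (U : Set B) ^ 2 + 2 * ((n + 1) % 2) * C.dm K (T : Set A) <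
      C.dm K (T : Set A) * (C.dm K (T : Set A) + 1) := h1
    rw [he1, dm_eq, dm_eq] at h1
    refine Or.inr (Or.inr (Or.inr ?_))
    change 2 * Module.finrank K U ^ 2 < Module.finrank K T * (Module.finrank K T - 1)
    rcases Nat.eq_zero_or_pos (Module.finrank K T) with h4 | h4
    · rw [h4] at h1
      omega
    · obtain ⟨m, hm⟩ := Nat.exists_eq_succ_of_ne_zero h4.ne'
      rw [hm] at h1 ⊢
      rw [Nat.succ_sub_one]
      have h5 : m.succ * (m.succ + 1) = m.succ * m + 2 * m.succ := by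
        rw [Nat.succ_eq_add_one]; ring
      omega

theorem freeS_of {n : ℕ} (hn : Odd n) {ρ : Act K A Γ} {T : Submodule K A}
    {ρT : Γ →* (T →ₗ[K] T)} (hρ : ∀ g x, (ρT g x : A) = ap ρ g x) {ρ' : Act K B Γ}
    {U : Submodule K B} (hU : ∀ g, ∀ x ∈ U, ap ρ' g x ∈ U)
    (h : ¬Entangled ρ T ρ' U ∨ LowDim n (dm K (U : Set B)) (dm K (T : Set A))) :
    SmallRel (⟨T, ρT⟩ : FRep K Γ) (Y95.ZT.subRep (show Γ →* (B ≃ₐ[K] B) from ρ') U hU) := by
  rcases h with h | h1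
  · exact Or.inl (Or.inr (Or.inr (Or.inr fun h1 => h (entangled_of hρ hU h1))))
  · have he1 : (n + 1) % 2 = 0 := by
      obtain ⟨m, rfl⟩ := hn
      omega
    have h1 : 2 * C.dm K (U : Set B) ^ 2 + 2 * ((n + 1) % 2) * C.dm K (T : Set A) <
      C.dm K (T : Set A) * (C.dm K (T : Set A) + 1) := h1
    rw [he1, dm_eq, dm_eq] at h1
    refine Or.inr (Or.inr (Or.inr ?_))
    change 2 * Module.finrank K U ^ 2 < Module.finrank K T * (Module.finrank K T + 1)
    omega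

/-- the local conditions of the two files -/
theorem localType_of {n : ℕ} {ρ : Act K A Γ} {T : Submodule K A} (h : LocalType n ρ T) :
    C.LocalType n ρ T := h

end Alg

variable {k : Type u} [Field k] {𝒱 : VarClass k} {ops : CycleOps 𝒱}
  {W : WeilCohomology.{u, 0} ops} {Γ : Type} [Group Γ] {χ : Γ →* W.Kˣ}
  {ι : Type} {X : ι → GVar W Γ} {G : Set (GVar W Γ)} {D : ∀ i, (X i).X.Cycles} {Z : GVar W Γ}

/-- the class of varieties -/
theorem FreeFamily.galoisClass (h : FreeFamily χ G X Z) : GaloisClass χ G where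
  galois := fun A hA => (h.good A hA).1
  prod := by
    intro A hA B hB
    obtain ⟨⟨Y, υ⟩, hC, h1, h2, h3⟩ := (h.good A hA).2 B hB
    exact ⟨_, hC, prodVar_of υ h1 h2 h3⟩

theorem FreeFamily.gal (h : FreeFamily χ G X Z) (i : ι) : Y127.GaloisType χ (X i) :=
  (h.good _ (h.mem i)).1

/-- the family -/
theorem FreeFamily.fam (h : FreeFamily χ G X Z) (hD : ∀ i, HomEqNum W (X i).X) : Fam χ X where
  galois := h.gal
  homEqNum := hD
  middle := fun i => (h.member i).1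
  irreducible := fun i => (h.member i).2.1
  lsp := by
    intro i ho
    rcases (h.member i).2.2 with ⟨-, h1⟩ | ⟨h1, -⟩
    · exact bigLoc_of (h.gal i) (localSp_of h1)
    · exact absurd ho (Nat.not_odd_iff_even.2 h1)
  lso := by
    intro i he
    rcases (h.member i).2.2 with ⟨h1, -⟩ | ⟨-, h1, h2⟩
    · exact absurd he (Nat.not_even_iff_odd.2 h1)
    · have h3 : C.dm W.K (transcendental W (X i).X : Set (W.H (X i).X)) = 3 ∨
        5 ≤ C.dm W.K (transcendental W (X i).X : Set (W.H (X i).X)) := h1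
      rw [dm_eq] at h3
      exact ⟨h3, bigLocO_of (h.gal i) h2⟩
  notIso := fun i j hij h1 => (h.distinct i j hij).1 (twistIso_of'
    (fun g x hx => (rhoT (isGalois (h.gal i)) g ⟨x, hx⟩).2) h1)
  mixed := by
    intro i j h1 h2 h3
    have hij : i ≠ j := by
      rintro rfl
      exact absurd h1 (Nat.not_odd_iff_even.2 h2)
    exact (h.distinct i j hij).2.1 h1 h2 h3
  eight := by
    intro i j hij h1 h2 h3 h4
    exact absurd ⟨h1, h2, h3, h4⟩ (h.distinct i j hij).2.2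

/-- the base -/
theorem FreeFamily.bas (h : FreeFamily χ G X Z) (hD : ∀ i, HomEqNum W (X i).X) :
    (h.fam hD).Base Z := by
  intro i
  obtain ⟨r, U, h1, h2, h3⟩ := h.base i
  refine ⟨r, fun a => Y95.ZT.subRep Z.act (U a) (h2 a), fun a => (U a).subtype, fun a => ?_,
    fun a g x => rfl, ?_⟩
  · rcases Nat.even_or_odd (X i).X.dim with he | ho
    · have h4 := freeO_of he (ρT := rhoT (isGalois (h.gal i))) (fun g x => rfl) (h2 a) (h1 a)
      unfold Fam.rep
      rw [dif_neg (Nat.not_odd_iff_even.2 he)]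
      exact h4
    · have h4 := freeS_of ho (ρT := rhoT (isGalois (h.gal i))) (fun g x => rfl) (h2 a) (h1 a)
      unfold Fam.rep
      rw [dif_pos ho]
      exact h4
  · rw [← h3]
    congr 2
    refine Set.iUnion_congr fun a => ?_
    change Set.range ((U a).subtype) = _
    rw [Submodule.coe_subtype, Subtype.range_coe_subtype]
    rfl

variable [IsAlgClosed W.K]

/-- all steps -/
theorem FreeFamily.tsteps (e : W.K ≃+* ℂ) (h : FreeFamily χ G X Z)
    (hP : ∀ i, Polarization W (X i).X (D i)) (E : Z.X.Cycles)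
    {L : List (ι × ℕ)} (hL : Admissible X L) :
    Q71.TS.TSteps W (fun i => (⟨(X i).X, D i⟩ : Polarized 𝒱)) ⟨Z.X, E⟩ L :=
  have hP' : ∀ i, C.Polarization W (X i).X (D i) := hP
  have hD := fun i => V11219.Loc.homEqNum_of_pol (hP' i).pol
  (h.fam hD).tsteps e (h.bas hD) h.galoisClass h.mem h.mem_base (fun i => (hP' i).pol) E L hL.1
    hL.2

/-- **The conjecture D.** -/
theorem FreeFamily.homEqNum_iff (e : W.K ≃+* ℂ) (h : FreeFamily χ G X Z) (hP : C.Polarizable X)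
    {L : List (ι × ℕ)} (hL : Admissible X L) :
    HomEqNum W (C.prodOf X Z L) ↔ HomEqNum W Z.X := by
  choose D hD using hP
  rw [prodOf_eq D 0]
  exact Q71.TS.homEqNum_tower (h.tsteps e hD 0 hL)

/-- **The conjecture of Hodge type.** -/
theorem FreeFamily.hodge_iff (e : W.K ≃+* ℂ) (h : FreeFamily χ G X Z)
    (hP : ∀ i, Polarization W (X i).X (D i)) {E : Z.X.Cycles}
    (hE : Z.X.IsCyc 1 E) (hHL : HardLefschetz W Z.X E) {L : List (ι × ℕ)}
    (hL : Admissible X L) :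
    HodgeType W (C.towerOf ops (fun i => ⟨(X i).X, D i⟩) ⟨Z.X, E⟩ L).X
      (C.towerOf ops (fun i => ⟨(X i).X, D i⟩) ⟨Z.X, E⟩ L).D ↔ HodgeType W Z.X E := by
  rw [ctower_eq]
  exact hodge_tower (h.tsteps e hP E hL) hE hHL

/-- **The conjecture A for the sum of the divisors.** -/
theorem FreeFamily.lefschetzA_iff (e : W.K ≃+* ℂ) (h : FreeFamily χ G X Z)
    (hP : ∀ i, Polarization W (X i).X (D i)) {E : Z.X.Cycles}
    (hE : Z.X.IsCyc 1 E) (hHL : HardLefschetz W Z.X E) {L : List (ι × ℕ)}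
    (hL : Admissible X L) :
    LefschetzA W (C.towerOf ops (fun i => ⟨(X i).X, D i⟩) ⟨Z.X, E⟩ L).X
      (C.towerOf ops (fun i => ⟨(X i).X, D i⟩) ⟨Z.X, E⟩ L).D ↔ LefschetzA W Z.X E := by
  rw [ctower_eq]
  exact Q71.TS.lefschetzA_tower (h.tsteps e hP E hL) hE hHL

/-- **The conjecture A for all divisors.** -/
theorem FreeFamily.lefAll_iff (e : W.K ≃+* ℂ) (h : FreeFamily χ G X Z) (hP : C.Polarizable X)
    {L : List (ι × ℕ)} (hL : Admissible X L) :
    LefAll W (C.prodOf X Z L) ↔ LefAll W Z.X := by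
  choose D hD using hP
  rw [prodOf_eq D 0]
  exact Q71.TS.lefAll_tower (h.tsteps e hD 0 hL)

end Run7.h552.NA
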