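import Pool.Agent.TH125.Gal.Pub
import Pool.Agent.Y127.G.SDefs
import Pool.Agent.Run7.h552.SF.WDefs
import Pool.Agent.Run7.h552.MX.LDefs

/-!
# Varieties with symplectic or orthogonal monodromy and a variety which is not entangled with them
-/

set_option autoImplicit false

open CategoryTheory AlgebraicGeometry

universe u

namespace Run7.h552.NA

open Pool.Agent.TH125.Gal Pool.Agent.Y127.G Run7.h552.SF Run7.h552.MX

section Alg

/-- The actions of `Γ` on the algebra `A`. -/
def Act (K : Type) [Field K] (A : Type) [Ring A] [Algebra K A] (Γ : Type) [Group Γ] : Type :=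
  Γ →* (A ≃ₐ[K] A)

variable {K : Type} [Field K] {A : Type} [Ring A] [Algebra K A] {B : Type} [Ring B] [Algebra K B]
  {Γ : Type} [Group Γ]

/-- The element `g x`. -/
def ap (ρ : Act K A Γ) (g : Γ) (x : A) : A := (show Γ →* (A ≃ₐ[K] A) from ρ) g x

/-- The element `g x - x`. -/
def df (ρ : Act K A Γ) (g : Γ) (x : A) : A := ap ρ g x - x

/-- The dimension of the space which is generated by the set `S`. -/
noncomputable def dm (K : Type) [Field K] {A : Type} [Ring A] [Algebra K A] (S : Set A) : ℕ :=
  Module.finrank K (Submodule.span K S)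

/-- The rank of `g - 1` on `T`. -/
noncomputable def rk (ρ : Act K A Γ) (T : Set A) (g : Γ) : ℕ := dm K (df ρ g '' T)

/-- `(g - 1) ^ 2 = 0` on `T`. -/
def Quad (ρ : Act K A Γ) (T : Set A) (g : Γ) : Prop := ∀ x ∈ T, df ρ g (df ρ g x) = 0

/-- The element `g` acts on `T` like a generator of the inertia group at a place of maximal
degeneration of a K3 surface (type III): `(g - 1) ^ 3 = 0`, `(g - 1) ^ 2 ≠ 0`, and `g - 1` has rank
two. -/
def Maximal (ρ : Act K A Γ) (T : Set A) (g : Γ) : Prop :=
  (∀ x ∈ T, df ρ g (df ρ g (df ρ g x)) = 0) ∧ (∃ x ∈ T, df ρ g (df ρ g x) ≠ 0) ∧ rk ρ T g = 2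

/-- The number `d` is a *defect* of `g` on `T`: the rank of `g - 1`, or the (algebraic) multiplicity
of an eigenvalue `a ≠ 0` of `(g - 1) (g' - 1)`, for an element `g'` with `(g' - 1) ^ 2 = 0` on
`T`. -/
def IsDefect (ρ : Act K A Γ) (T : Set A) (g : Γ) (d : ℕ) : Prop :=
  d = rk ρ T g ∨ ∃ g', Quad ρ T g' ∧ ∃ a : K, a ≠ 0 ∧
    d = dm K {x | x ∈ T ∧ ∃ n : ℕ, (fun y => df ρ g (df ρ g' y) - a • y)^[n] x = 0}

/-- There is an element `g` with `(g - 1) ^ 2 = 0` on `T`, such that the defects of `g` have no
common prime factor or contain the number two; or there is such an element whose conjugates act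
irreducibly on `T`, and the defects of all these elements together have no common prime factor. -/
def SmallDefects (ρ : Act K A Γ) (T : Submodule K A) : Prop :=
  (∃ g, Quad ρ T g ∧
    ((∀ p : ℕ, p.Prime → ∃ d, IsDefect ρ T g d ∧ ¬ p ∣ d) ∨ IsDefect ρ T g 2)) ∨
  ((∃ g, Quad ρ T g ∧ ∀ U ≤ T, (∀ h : Γ, ∀ x ∈ U, ap ρ (h * g * h⁻¹) x ∈ U) → U = ⊥ ∨ U = T) ∧
    ∀ p : ℕ, p.Prime → ∃ g, Quad ρ T g ∧ ∃ d, IsDefect ρ T g d ∧ ¬ p ∣ d)

variable {V V' : Type} [AddCommGroup V] [Module K V] [AddCommGroup V'] [Module K V']

/-- The operator `c₀ x + c₁ y + c₂ (x y - y x)`. -/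
def comb (x y : Module.End K V) (c : Fin 3 → K) : Module.End K V :=
  c 0 • x + c 1 • y + c 2 • (x * y - y * x)

/-- The operator `x'` is the conjugate `g x g⁻¹`, for the operations `R g` on `V`. -/
def Conj (R : Γ → V → V → Prop) (g : Γ) (x x' : Module.End K V) : Prop :=
  ∀ u u', R g u u' → R g (x u) (x' u')

/-- The operations `R g` on `V` are of tensor type: there are operators `x`, `y` with
`x ^ 2 = y ^ 2 = 0` and `x y + y x = 1` such that for every `g` and every combination `a` of `x`, `y`,
`x y - y x` there is a combination `a'` with `g a t = a' g t` for all `t`. (So `V` is a tensor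
product of a space of dimension `2` with another space, and every `g` acts on `V` as a tensor product
of two operators.) -/
def TensorType (R : Γ → V → V → Prop) : Prop :=
  ∃ x y : Module.End K V, x * x = 0 ∧ y * y = 0 ∧ x * y + y * x = 1 ∧
    ∀ g c, ∃ c', Conj R g (comb x y c) (comb x y c')

/-- There are a Lie algebra `L` of operators on `V`, stable under the conjugation with the operations
`R g`, and an equivariant homomorphism of Lie algebras `φ` from `L` to the operators on `V'`, whose
image is not commutative. -/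
def HasLieHom (R : Γ → V → V → Prop) (R' : Γ → V' → V' → Prop) : Prop :=
  ∃ (L : Module.End K V → Prop) (φ : Module.End K V → Module.End K V'),
    (∀ x y c, L x → L y → L (comb x y c) ∧ φ (comb x y c) = comb (φ x) (φ y) c) ∧
    (∀ g x x', L x → Conj R g x x' → L x' ∧ Conj R' g (φ x) (φ x')) ∧
    ∃ x y, L x ∧ L y ∧ φ x * φ y ≠ φ y * φ x

/-- The operations of the group on the subspace `U`: `g u = u'`. -/
def On (ρ : Act K A Γ) (U : Submodule K A) (g : Γ) (u u' : U) : Prop := ap ρ g u = u'

/-- `T` is entangled with `U`: there are a stable Lie algebra `L` of operators on `U` and an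
equivariant homomorphism of Lie algebras from `L` to the operators on `T` whose image is not
commutative. -/
def Entangled (ρ : Act K A Γ) (T : Submodule K A) (ρ' : Act K B Γ) (U : Submodule K B) : Prop :=
  HasLieHom (K := K) (On ρ' U) (On ρ T)

variable [FiniteDimensional K A] [FiniteDimensional K B]

/-- The element `F` acts on the space `U` with the slopes `s`: the values of the additive function `v`
at the eigenvalues, with multiplicities. -/
def SlopesOn (v : Additive Kˣ →+ ℚ) (F : Γ) (ρ : Act K A Γ) (U : Submodule K A)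
    (s : Multiset ℚ) : Prop :=
  ∃ f : Module.End K U, (∀ x : U, (f x : A) = ap ρ F x) ∧ slopes v f = s

/-- The condition on the slopes `s` on `T`: some slope is isolated; or the slopes are `h + 3 c`,
`h - 3 c` and other slopes between `h - c` and `h + c`, and either one of the latter is not
`h - c` or `h + c`, or the dimension of `T` is `2 q + 2`, where `q` is different from `1`, `3`, `6`,
`9`, `15`, `27`, and `q` is `0` or `T` is not of tensor type. -/
def SlopeType (ρ : Act K A Γ) (T : Submodule K A) (s : Multiset ℚ) : Prop :=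
  (∃ a a', IsolatedAt s a a') ∨
  ∃ s' h c, HeightOneAt s s' h c ∧ ((∃ x ∈ s', |x - h| < c) ∨
    ∃ q : ℕ, dm K (T : Set A) = 2 * q + 2 ∧ q ∉ ({1, 3, 6, 9, 15, 27} : Finset ℕ) ∧
      (q = 0 ∨ ¬TensorType (K := K) (On ρ T)))

/-- The condition on the numbers `p`, `q`: either `p = 1`, `q > 0` and `q` is not `2`, or `p > 1`, `p`
and `q` are coprime and `2 p ^ 2 (p ^ 2 + 1) < (q - 2 p) (q + p)`. -/
def LvNum (p q : ℕ) : Prop :=
  (p = 1 ∧ 0 < q ∧ q ≠ 2) ∨
    (2 ≤ p ∧ Nat.Coprime p q ∧ 2 * p ^ 2 * (p ^ 2 + 1) < (q - 2 * p) * (q + p))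

/-- The local condition on `T`, for a variety of dimension `n`. If `n` is odd: some element `F` has
slopes as in `SlopeType`, or `SmallDefects` (for example some `g` with `(g - 1) ^ 2 = 0` on `T` has
rank one or two). If `n` is even: the dimension of `T` is `3` or at least `5`, and some element `F`
has the slopes `h + c`, `h`, `h - c` with multiplicities `p`, `q`, `p` as in `LvNum`, or some `g` is
maximal. -/
def LocalType (n : ℕ) (ρ : Act K A Γ) (T : Submodule K A) : Prop :=
  (Odd n ∧ ((∃ v F s, SlopesOn v F ρ T s ∧ SlopeType ρ T s) ∨ SmallDefects ρ T)) ∨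
  (Even n ∧ (dm K (T : Set A) = 3 ∨ 5 ≤ dm K (T : Set A)) ∧
    ((∃ v F p q h c, 0 < c ∧ LvNum p q ∧ SlopesOn v F ρ T (Level p q h c)) ∨
      ∃ g, Maximal ρ T g))

/-- The space `T` is contained in `G`, irreducible under all subgroups of finite index, and satisfies
the local condition. -/
def MemberOn (n : ℕ) (ρ : Act K A Γ) (T G : Submodule K A) : Prop :=
  T ≤ G ∧ IrredAct ρ T ∧ LocalType n ρ T

/-- There are a linear map `ψ`, which maps `T` bijectively to `U`, and a function `ε` on the group
with `ψ (g x) = ε(g) g ψ(x)`. -/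
def TwistIso (ρ : Act K A Γ) (T : Submodule K A) (ρ' : Act K B Γ) (U : Submodule K B) : Prop :=
  ∃ (ψ : A → B) (ε : Γ → K), IsLinearMap K ψ ∧ Set.BijOn ψ T U ∧
    ∀ g, ∀ x ∈ T, ψ (ap ρ g x) = ε g • ap ρ' g (ψ x)

/-- The condition on the dimensions `n`, `n'` of two varieties and the dimensions `t`, `u` of their
spaces: if `n` is odd and `n'` is even then `t`, `u` are not `2`, `3` or `4`, `5`; and if `n` and `n'`
are even `t` and `u` are not both `8`. -/
def NotExc (n t n' u : ℕ) : Prop :=
  (Odd n → Even n' → u = t + 1 → 5 < u) ∧ ¬(Even n ∧ Even n' ∧ t = 8 ∧ u = 8)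

/-- The inequality `2 u ^ 2 < t (t + 1)` if `n` is odd and `2 u ^ 2 < t (t - 1)` if `n` is even. -/
def LowDim (n u t : ℕ) : Prop := 2 * u ^ 2 + 2 * ((n + 1) % 2) * t < t * (t + 1)

/-- The algebra `B` is generated by elements `x` with `g x = χ g ^ m • x` for all `g` in a subgroup of
finite index and by finitely many stable subspaces `U` such that `T` is not entangled with `U` or the
dimension of `U` is low. -/
def GenFree (χ : Γ →* Kˣ) (n : ℕ) (ρ : Act K A Γ) (T : Submodule K A) (ρ' : Act K B Γ) : Prop :=
  ∃ (r : ℕ) (U : Fin r → Submodule K B),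
    (∀ a, ¬Entangled ρ T ρ' (U a) ∨ LowDim n (dm K (U a : Set B)) (dm K (T : Set A))) ∧
    (∀ a g, ∀ x ∈ U a, ap ρ' g x ∈ U a) ∧
      Algebra.adjoin K ({x | ∃ (m : ℕ) (Δ : Subgroup Γ), Δ.FiniteIndex ∧
        ∀ g ∈ Δ, ap ρ' g x = (χ g : K) ^ m • x} ∪ ⋃ a, (U a : Set B)) = ⊤

end Alg

open Pool.Agent.H914 Pool.Agent.H914.VarClass Pool.Agent.H914.VarClass.Obj
  Pool.Agent.H914.WeilCohomology Pool.Agent.H281R3.HT

variable {k : Type u} [Field k] {𝒱 : VarClass k} {ops : CycleOps 𝒱}

/-- The characters of `Γ` with values in the coefficient field of `W`. -/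
abbrev CharOf (W : WeilCohomology.{u, 0} ops) (Γ : Type) [Group Γ] : Type := Γ →* W.Kˣ

variable {W : WeilCohomology.{u, 0} ops} {Γ : Type} [Group Γ] {ι : Type}

/-- The action of `Γ` on the cohomology of `A` has the formal properties of a Galois action. -/
def GaloisVar (χ : CharOf W Γ) (A : GVar W Γ) : Prop :=
  IsGaloisAct χ (W.gr A.X) A.X.dim (W.tr A.X) (algClasses W A.X) A.act

/-- The pull-back by the morphism `f` is equivariant. -/
def Equivariant {A B : GVar W Γ} (f : A.X ⟶ B.X) : Prop :=
  Intertwines (W.map f) B.act A.act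

/-- `C` is the product of `A` and `B`, and the action on its cohomology is compatible with the
projections. -/
def IsProd (A B C : GVar W Γ) : Prop :=
  ∃ h : C.X = A.X.prod B.X,
    Equivariant (eqToHom h ≫ fst A.X B.X) ∧ Equivariant (eqToHom h ≫ snd A.X B.X)

/-- The group acts on the cohomology of the members of the class `G` like a Galois group, and `G` is
closed under products. -/
def GoodClass (χ : CharOf W Γ) (G : Set (GVar W Γ)) : Prop :=
  ∀ A ∈ G, GaloisVar χ A ∧ ∀ B ∈ G, ∃ C ∈ G, IsProd A B C

/-- The divisor `D` on `X` satisfies the hard Lefschetz theorem and the standard conjectures of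
Lefschetz and of Hodge type. -/
def Polarization (W : WeilCohomology.{u, 0} ops) (X : 𝒱.Obj) (D : X.Cycles) : Prop :=
  X.IsCyc 1 D ∧ HardLefschetz W X D ∧ LefschetzB W X D ∧ HodgeType W X D

/-- The transcendental cohomology of `A` (the orthogonal complement of all algebraic classes) is in
the middle degree, irreducible under all subgroups of finite index, and satisfies the local
condition. -/
def Member (A : GVar W Γ) : Prop :=
  MemberOn A.X.dim A.act (transcendental W A.X) (W.gr A.X A.X.dim)

/-- The transcendental cohomologies of `A` and `B` are not isomorphic up to a function on `Γ` and do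
not have exceptional dimensions. -/
def Distinct (A B : GVar W Γ) : Prop :=
  ¬TwistIso A.act (transcendental W A.X) B.act (transcendental W B.X) ∧
    NotExc A.X.dim (transRank W A.X) B.X.dim (transRank W B.X)

/-- The variety `Z` and the varieties `X i` are members of the good class `G`; the varieties `X i`
satisfy `Member`, two different ones satisfy `Distinct`, and the cohomology of `Z` is generated by
subspaces with which the transcendental cohomology of the varieties `X i` is not entangled, or of low
dimension. -/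
structure FreeFamily (χ : CharOf W Γ) (G : Set (GVar W Γ)) (X : ι → GVar W Γ) (Z : GVar W Γ) :
    Prop where
  good : GoodClass χ G
  mem : ∀ i, X i ∈ G
  mem_base : Z ∈ G
  member : ∀ i, Member (X i)
  distinct : ∀ i j, i ≠ j → Distinct (X i) (X j)
  base : ∀ i, GenFree χ (X i).X.dim (X i).act (transcendental W (X i).X) Z.act

/-- The indices in the list are pairwise different, and `n + 1` is less than the dimension of the
transcendental cohomology of `X i` for the pairs `(i, n)` for which `X i` has even dimension. -/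
def Admissible (X : ι → GVar W Γ) (L : List (ι × ℕ)) : Prop :=
  (L.map Prod.fst).Nodup ∧ ∀ a ∈ L, Even (X a.1).X.dim → a.2 + 1 < transRank W (X a.1).X

end Run7.h552.NA
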